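import Pool.Agent.N155.B.Rat

/-!
Entire curves of bounded distortion in projective manifolds with positive 2-forms, for example in
surfaces of general type: they are elliptic, and for a given bound there are only finitely many, up
to affine reparametrisations.
-/

set_option autoImplicit false

open Pool.Agent.W602.GT Pool.Agent.N155.BB LinearAlgebra.Projectivization

/-- Let `X = {F = 0}` be a projective manifold of dimension `d`, and `Z = {G = 0}` a projective set
such that the holomorphic maps from the complex plane to `X ∩ Z` are constant or factor through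
rational curves (for example `Z` empty). Suppose that the 2-forms on `X` are positive outside `Z`
(for example `Λ² Ω` ample and `Z` empty; or `d = 2`, `X` of general type and `X ∩ Z` the union of the
curves contracted in the canonical model, which are rational).

For every number `K` there are finitely many doubly periodic holomorphic maps `g` from the complex
plane to `X` such that every holomorphic map `f` from the complex plane to `X` with
`c ≤ |f'| ≤ K c` for some `c > 0`, with respect to the Fubini-Study metric, is `f z = g (a z + b)`
for one of them and some numbers `a ≠ 0`, `b`. -/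
theorem Pool.Agent.N155.Shelf.boundedDistortionCurves {n : ℕ} {ι ι' : Type}
    (F : ι → MvPolynomial (Fin (n + 1)) ℂ) (d : ℕ) (hX : ProjManifold F d)
    (G : ι' → MvPolynomial (Fin (n + 1)) ℂ) (hG : ∀ i, IsForm (G i))
    (hZ : RationalCurvesOnly F G) {κ : Type}
    (η : κ → (Fin (n + 1) → ℂ) → (Fin (n + 1) → ℂ) → (Fin (n + 1) → ℂ) → ℂ)
    (hη : PositiveTwoForms (Cone F) (Cone G) d η) (K : ℝ) :
    ∃ S : Finset (ℂ → ℙ ℂ (Fin (n + 1) → ℂ)), (∀ g ∈ S, HolIn F g ∧ DoublyPeriodic g) ∧
      ∀ f : ℂ → ℙ ℂ (Fin (n + 1) → ℂ), HolIn F f → ∀ c : ℝ, 0 < c → DerBetween c (K * c) f →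
        ∃ g ∈ S, ∃ a b : ℂ, a ≠ 0 ∧ ∀ z, f z = g (a * z + b) :=
  finite_curves hX hG hη (noBC_of hZ) K
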