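import Pool.Agent.N155.G.Res
import Pool.Agent.N155.Q.Res

/-!
Projective manifolds with positive 2-forms: holomorphic maps of bounded distortion from discs,
half-planes, the punctured disc and the plane; and, if there are symmetric differentials without
common zeros, all entire curves, and the Kobayashi metric.
-/

set_option autoImplicit false

open Metric Pool.Agent.W602.GT Pool.Agent.N155.BB Pool.Agent.N155.GD Pool.Agent.N155.QD
  LinearAlgebra.Projectivization

/-- Let `X = {F = 0}` be a projective manifold of dimension `d`, and `Z = {G = 0}` a projective set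
such that the holomorphic maps from the complex plane to `X ∩ Z` are constant or factor through
rational curves (for example `Z` empty). Suppose that the 2-forms on `X` are positive outside `Z`
(for example `Λ² Ω` ample and `Z` empty).

(A) Suppose that finitely many symmetric differentials on `X` of the same degree `k > 0` have no
common zeros (for example, `Sym ^ k Ω` is generated by global sections). Then there are finitely many
doubly periodic holomorphic maps `g` from the complex plane to `X` such that

* every holomorphic map `f` from the complex plane to `X` with bounded derivative is constant or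
  `f z = g (a z + b)` for some `g` in the list and some numbers `a ≠ 0`, `b`;
* for every form `P` which vanishes on the images of all `g` in the list: `P` vanishes on the image
  of every nonconstant holomorphic map from the complex plane to `X`; and there are `A > 0` and
  `C > 0` such that the size `|P|` of `P` divided by `A` is at most one on projective space and for
  every holomorphic map `f` from the disc with center `a` and radius `r` to `X`, with
  `P (f a) ≠ 0`, the length `s` of the derivative of `f` at `a`, with respect to the Fubini-Study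
  metric, satisfies `(r s) ^ 2 ≤ C (1 + log (A / |P (f a)|))`. Thus the Kobayashi metric of `X` at
  the points where `P ≠ 0` is at least `|v| / √(C (1 + log (A / |P|)))`.

(B) For every number `K` there are finitely many doubly periodic holomorphic maps `g` from the
complex plane to `X`, and numbers `R > 0` and `κ > 0`, such that for all `c > 0`:

* for every holomorphic map `f` from the disc with center `a` and radius `r ≥ R / c` to `X` with
  `c ≤ |f'| ≤ K c`, there is a `g` in the list such that, for `|z - a| ≤ r - R / c`, the sine of the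
  distance of `f z` to the image of `g` is at most `exp (- κ c² (r² - |z - a|²))`;
* for every holomorphic map `f` from a domain which contains a half-plane to `X` with
  `c ≤ |f'| ≤ K c`, the image of `f` is contained in the image of some `g` in the list;
* for every holomorphic map `f` from the punctured unit disc to `X` with
  `c / |z| ≤ |f' z| ≤ K c / |z|`, the image of `f` is contained in the image of some `g` in the list;
* every holomorphic map `f` from the complex plane to `X` with `c ≤ |f'| ≤ K c` is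
  `f z = g (a z + b)` for some `g` in the list and some numbers `a ≠ 0`, `b`. -/
theorem Pool.Agent.N155.Shelf.FinitelyManyEllipticCurves.result {n : ℕ} {ι ι' : Type}
    (F : ι → MvPolynomial (Fin (n + 1)) ℂ) (d : ℕ) (hX : ProjManifold F d)
    (G : ι' → MvPolynomial (Fin (n + 1)) ℂ) (hG : ∀ i, IsForm (G i))
    (hZ : RationalCurvesOnly F G) {κ : Type}
    (η : κ → (Fin (n + 1) → ℂ) → (Fin (n + 1) → ℂ) → (Fin (n + 1) → ℂ) → ℂ)
    (hη : PositiveTwoForms (Cone F) (Cone G) d η) :
    (∀ (k : ℕ) (τ : Type) [Fintype τ] [Nonempty τ]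
        (σ : τ → (Fin (n + 1) → ℂ) → (Fin (n + 1) → ℂ) → ℂ), 0 < k →
        (∀ a, SymDiff (Cone F) d k (σ a)) → NoCommonZero (Cone F) d σ →
      ∃ S : Finset (ℂ → ℙ ℂ (Fin (n + 1) → ℂ)), (∀ g ∈ S, HolIn F g ∧ DoublyPeriodic g) ∧
        (∀ (f : ℂ → ℙ ℂ (Fin (n + 1) → ℂ)) (B : ℝ), HolIn F f → DerBetween 0 B f →
          (∀ z w, f z = f w) ∨ ∃ g ∈ S, ∃ a b : ℂ, a ≠ 0 ∧ ∀ z, f z = g (a * z + b)) ∧
        ∀ (P : MvPolynomial (Fin (n + 1)) ℂ) (e : ℕ), P.IsHomogeneous e →
          (∀ g ∈ S, ∀ z, MvPolynomial.eval (g z).rep P = 0) →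
          (∀ f : ℂ → ℙ ℂ (Fin (n + 1) → ℂ), HolIn F f → (∃ z w, f z ≠ f w) →
            ∀ z, MvPolynomial.eval (f z).rep P = 0) ∧
          ∃ A C : ℝ, 0 < A ∧ 0 < C ∧ (∀ x, absAt P e A x ≤ 1) ∧
            ∀ (a : ℂ) (r s : ℝ) (f : ℂ → ℙ ℂ (Fin (n + 1) → ℂ)), HolTo F (ball a r) f → 0 < r →
              HasSpeed f a s → MvPolynomial.eval (f a).rep P ≠ 0 →
              (r * s) ^ 2 ≤ C * (1 + Real.log (1 / absAt P e A (f a)))) ∧
    ∀ K : ℝ, ∃ (S : Finset (ℂ → ℙ ℂ (Fin (n + 1) → ℂ))) (R κ : ℝ), 0 < R ∧ 0 < κ ∧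
      (∀ g ∈ S, HolIn F g ∧ DoublyPeriodic g) ∧
      (∀ (a : ℂ) (r c : ℝ) (f : ℂ → ℙ ℂ (Fin (n + 1) → ℂ)), 0 < c → R ≤ c * r →
        HolBetween F (ball a r) (fun _ => c) (fun _ => K * c) f → ∃ g ∈ S, ∀ z : ℂ,
          c * ‖z - a‖ ≤ c * r - R →
            ∃ w : ℂ, chord (f z) (g w) ≤ Real.exp (-κ * (c ^ 2 * (r ^ 2 - ‖z - a‖ ^ 2)))) ∧
      (∀ (U : Set ℂ) (c : ℝ) (f : ℂ → ℙ ℂ (Fin (n + 1) → ℂ)), IsOpen U → IsPreconnected U →
        HasHalfPlane U → 0 < c → HolBetween F U (fun _ => c) (fun _ => K * c) f →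
        ∃ g ∈ S, ∀ z ∈ U, ∃ w : ℂ, f z = g w) ∧
      (∀ (c : ℝ) (f : ℂ → ℙ ℂ (Fin (n + 1) → ℂ)), 0 < c →
        HolBetween F (ball 0 1 \ {0}) (fun z => c / ‖z‖) (fun z => K * c / ‖z‖) f →
        ∃ g ∈ S, ∀ z ∈ ball (0 : ℂ) 1 \ {0}, ∃ w : ℂ, f z = g w) ∧
      ∀ (c : ℝ) (f : ℂ → ℙ ℂ (Fin (n + 1) → ℂ)), 0 < c →
        HolBetween F Set.univ (fun _ => c) (fun _ => K * c) f →
        ∃ g ∈ S, ∃ a b : ℂ, a ≠ 0 ∧ ∀ z, f z = g (a * z + b) :=
  ⟨fun _ _ _ _ _ hk hσ hn => sym_main hX hG hη (noBC_of hZ) hσ hk hn,
    fun K => bounded_distortion hX hG hη (noBC_of hZ) K⟩
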